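import Pool.Agent.helper5.IH.Spec

/-!
# MP_45d809_mp, row ih:PTH: off-diagonal entries of the adjugate count paths with matchings
-/

set_option autoImplicit false

namespace Pool.Agent.IH
open Finset CT SYM

namespace PTHh

variable {V : Type}

open Classical in
/-- Keep the cycle of `y`, invert the other cycles. -/
noncomputable def tw (y : V) (σ : Equiv.Perm V) : Equiv.Perm V where
  toFun w := if σ.SameCycle y w then σ w else σ.symm w
  invFun w := if σ.SameCycle y w then σ.symm w else σ w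
  left_inv w := by
    by_cases h : σ.SameCycle y w
    · have h' : σ.SameCycle y (σ w) := Equiv.Perm.sameCycle_apply_right.2 h
      simp only [if_pos h, if_pos h', Equiv.symm_apply_apply]
    · have h' : ¬ σ.SameCycle y (σ.symm w) := fun h1 =>
        h (Equiv.Perm.sameCycle_symm_apply_right.1 h1)
      simp only [if_neg h, if_neg h', Equiv.apply_symm_apply]
  right_inv w := by
    by_cases h : σ.SameCycle y w
    · have h' : σ.SameCycle y (σ.symm w) := Equiv.Perm.sameCycle_symm_apply_right.2 h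
      simp only [if_pos h, if_pos h', Equiv.apply_symm_apply]
    · have h' : ¬ σ.SameCycle y (σ w) := fun h1 =>
        h (Equiv.Perm.sameCycle_apply_right.1 h1)
      simp only [if_neg h, if_neg h', Equiv.symm_apply_apply]

theorem tw_pos {y : V} {σ : Equiv.Perm V} {w : V} (h : σ.SameCycle y w) : tw y σ w = σ w := if_pos h

theorem tw_neg {y : V} {σ : Equiv.Perm V} {w : V} (h : ¬ σ.SameCycle y w) :
    tw y σ w = σ.symm w := if_neg h

theorem tw_pow (y : V) (σ : Equiv.Perm V) (n : ℕ) : (tw y σ ^ n) y = (σ ^ n) y := by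
  induction n with
  | zero => rfl
  | succ n ih =>
    rw [pow_succ', pow_succ', Equiv.Perm.mul_apply, Equiv.Perm.mul_apply, ih]
    exact tw_pos (Equiv.Perm.sameCycle_pow_right.2 (Equiv.Perm.SameCycle.refl σ y))

theorem tw_sc [Finite V] (y : V) (σ : Equiv.Perm V) (w : V) :
    (tw y σ).SameCycle y w ↔ σ.SameCycle y w := by
  constructor
  · intro h
    obtain ⟨n, hn⟩ := h.exists_nat_pow_eq
    rw [← hn, tw_pow]
    exact Equiv.Perm.sameCycle_pow_right.2 (Equiv.Perm.SameCycle.refl σ y)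
  · intro h
    obtain ⟨n, hn⟩ := h.exists_nat_pow_eq
    rw [← hn, ← tw_pow]
    exact Equiv.Perm.sameCycle_pow_right.2 (Equiv.Perm.SameCycle.refl (tw y σ) y)

theorem tw_tw [Finite V] (y : V) (σ : Equiv.Perm V) : tw y (tw y σ) = σ := by
  ext w
  by_cases h : σ.SameCycle y w
  · rw [tw_pos ((tw_sc y σ w).2 h), tw_pos h]
  · rw [tw_neg (fun h1 => h ((tw_sc y σ w).1 h1)), Equiv.symm_apply_eq]
    rw [tw_neg (fun h1 => h (Equiv.Perm.sameCycle_apply_right.1 h1)), Equiv.symm_apply_apply]

theorem tw_fix (y : V) (σ : Equiv.Perm V) :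
    tw y σ = σ ↔ ∀ w, ¬ σ.SameCycle y w → σ (σ w) = w := by
  constructor
  · intro h w hw
    have h1 : tw y σ w = σ w := by rw [h]
    rw [tw_neg hw] at h1
    rw [← h1, Equiv.apply_symm_apply]
  · intro h
    ext w
    by_cases hw : σ.SameCycle y w
    · rw [tw_pos hw]
    · rw [tw_neg hw, Equiv.symm_apply_eq]
      exact (h w hw).symm

theorem zone : ∀ a : ZMod 2, a ≠ 0 → a = 1 := by decide

open Classical in
theorem adj_count [Fintype V] [DecidableEq V] (M : Matrix V V (ZMod 2)) (x y : V) :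
    M.adjugate x y =
      ((univ.filter fun σ : Equiv.Perm V => σ y = x ∧ ∀ i, i ≠ y → M i (σ i) ≠ 0).card : ZMod 2) := by
  rw [Matrix.adjugate_apply, ← Matrix.det_transpose, Matrix.det_apply', Finset.card_filter,
    Nat.cast_sum]
  refine Finset.sum_congr rfl fun σ _ => ?_
  have hs : (((Equiv.Perm.sign σ : ℤˣ) : ℤ) : ZMod 2) = 1 := by
    rcases Int.units_eq_one_or (Equiv.Perm.sign σ) with h | h
    · rw [h]; rfl
    · rw [h]; rfl
  rw [hs, one_mul]
  by_cases hR : σ y = x ∧ ∀ i, i ≠ y → M i (σ i) ≠ 0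
  · rw [if_pos hR, Nat.cast_one]
    refine Finset.prod_eq_one fun i _ => ?_
    rw [Matrix.transpose_apply]
    by_cases hi : i = y
    · rw [hi, Matrix.updateRow_self, hR.1, Pi.single_eq_same]
    · rw [Matrix.updateRow_ne hi]
      exact zone _ (hR.2 i hi)
  · rw [if_neg hR, Nat.cast_zero]
    by_cases h1 : σ y = x
    · have h2 : ∃ i, i ≠ y ∧ M i (σ i) = 0 := by
        by_contra h3
        apply hR
        refine ⟨h1, fun i hi h4 => h3 ⟨i, hi, h4⟩⟩
      obtain ⟨i, hi, h3⟩ := h2
      refine Finset.prod_eq_zero (Finset.mem_univ i) ?_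
      rw [Matrix.transpose_apply, Matrix.updateRow_ne hi, h3]
    · refine Finset.prod_eq_zero (Finset.mem_univ y) ?_
      rw [Matrix.transpose_apply, Matrix.updateRow_self]
      exact Pi.single_eq_of_ne h1 _

open Classical in
theorem parity [Fintype V] [DecidableEq V] (M : Matrix V V (ZMod 2)) (hM : ∀ v w, M v w = M w v)
    (x y : V) :
    ((univ.filter fun σ : Equiv.Perm V => σ y = x ∧ ∀ i, i ≠ y → M i (σ i) ≠ 0).card : ZMod 2) =
      ((univ.filter fun σ : Equiv.Perm V => (σ y = x ∧ ∀ i, i ≠ y → M i (σ i) ≠ 0) ∧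
        ∀ w, ¬ σ.SameCycle y w → σ (σ w) = w).card : ZMod 2) := by
  have key : ∀ σ : Equiv.Perm V, (σ y = x ∧ ∀ i, i ≠ y → M i (σ i) ≠ 0) →
      (tw y σ y = x ∧ ∀ i, i ≠ y → M i (tw y σ i) ≠ 0) := by
    rintro σ ⟨h1, h2⟩
    refine ⟨by rw [tw_pos (Equiv.Perm.SameCycle.refl σ y)]; exact h1, fun i hi => ?_⟩
    by_cases h : σ.SameCycle y i
    · rw [tw_pos h]
      exact h2 i hi
    · rw [tw_neg h, hM]
      have h3 : σ.symm i ≠ y := by
        intro h4
        apply h
        have h5 := Equiv.Perm.sameCycle_symm_apply_right (f := σ) (x := y) (y := i)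
        rw [h4] at h5
        exact h5.1 (Equiv.Perm.SameCycle.refl σ y)
      have h6 := h2 (σ.symm i) h3
      rwa [Equiv.apply_symm_apply] at h6
  rw [← Finset.card_filter_add_card_filter_not (s := univ.filter fun σ : Equiv.Perm V =>
    σ y = x ∧ ∀ i, i ≠ y → M i (σ i) ≠ 0) (fun σ => tw y σ = σ), Nat.cast_add]
  have hz : (((univ.filter fun σ : Equiv.Perm V => σ y = x ∧ ∀ i, i ≠ y → M i (σ i) ≠ 0).filter
      fun σ => ¬ tw y σ = σ).card : ZMod 2) = 0 := by
    rw [Finset.card_eq_sum_ones, Nat.cast_sum]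
    refine Finset.sum_involution (fun σ _ => tw y σ) ?_ ?_ ?_ ?_
    · intro σ _
      decide
    · intro σ hσ _
      exact (Finset.mem_filter.1 hσ).2
    · intro σ hσ
      have h1 := Finset.mem_filter.1 hσ
      refine Finset.mem_filter.2 ⟨Finset.mem_filter.2 ⟨Finset.mem_univ _,
        key σ (Finset.mem_filter.1 h1.1).2⟩, fun h2 => h1.2 ?_⟩
      rw [tw_tw] at h2
      exact h2.symm
    · intro σ _
      exact tw_tw y σ
  rw [hz, add_zero, Finset.filter_filter]
  congr 2
  refine Finset.filter_congr fun σ _ => ?_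
  rw [tw_fix]

end PTHh

open PTHh

theorem PTH : PTH_stmt := by
  classical
  intro V _ _ H t x y hxy
  have hsym : ∀ v w, MM H t v w = MM H t w v := by
    intro v w
    unfold MM
    simp only [Matrix.of_apply]
    by_cases h : v = w
    · subst h; rfl
    · rw [if_neg h, if_neg (Ne.symm h)]
      refine if_congr ?_ rfl rfl
      rw [H.adj_comm]
      tauto
  have hd : ∀ v, MM H t v v ≠ 0 ↔ t v ≠ 1 := by
    intro v
    unfold MM
    simp only [Matrix.of_apply, if_true]
    by_cases h : t v = 1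
    · simp [h]
    · simp [h]
  have ho : ∀ v w, v ≠ w → (MM H t v w ≠ 0 ↔ H.Adj v w ∧ t v ≠ 0 ∧ t w ≠ 0) := by
    intro v w h
    unfold MM
    simp only [Matrix.of_apply, if_neg h]
    by_cases h1 : H.Adj v w ∧ t v ≠ 0 ∧ t w ≠ 0
    · rw [if_pos h1]
      exact ⟨fun _ => h1, fun _ => one_ne_zero⟩
    · rw [if_neg h1]
      exact ⟨fun h2 => absurd rfl h2, fun h2 => absurd h2 h1⟩
  rw [adj_count, parity _ hsym]
  unfold pc
  rw [Nat.card_eq_fintype_card, Fintype.card_subtype]
  congr 2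
  refine Finset.filter_congr fun σ _ => ?_
  constructor
  · rintro ⟨⟨h1, h2⟩, h3⟩
    refine ⟨⟨h1, fun w hw hw' => ((ho w (σ w) (Ne.symm hw')).1 (h2 w hw)).1, h3⟩, fun v => ⟨?_, ?_⟩⟩
    · intro hv
      by_contra hne
      by_cases hvy : v = y
      · have h4 : σ (σ.symm y) = y := σ.apply_symm_apply y
        have h5 : σ.symm y ≠ y := by
          intro h6
          rw [h6, h1] at h4
          exact hxy h4
        have h7 := h2 (σ.symm y) h5
        rw [h4] at h7
        have h8 := (ho _ _ h5).1 h7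
        exact h8.2.2 (hvy ▸ hv)
      · exact ((ho v (σ v) (Ne.symm hne)).1 (h2 v hvy)).2.1 hv
    · intro hv hfix
      by_cases hvy : v = y
      · rw [hvy, h1] at hfix
        exact hxy hfix
      · have h4 := h2 v hvy
        rw [hfix] at h4
        exact (hd v).1 h4 hv
  · rintro ⟨⟨h1, h2, h3⟩, h4⟩
    refine ⟨⟨h1, fun i hi => ?_⟩, h3⟩
    by_cases hfix : σ i = i
    · rw [hfix]
      exact (hd i).2 fun h5 => (h4 i).2 h5 hfix
    · refine (ho i (σ i) (Ne.symm hfix)).2 ⟨h2 i hi hfix, fun h5 => hfix ((h4 i).1 h5), fun h5 => ?_⟩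
      exact hfix (σ.injective ((h4 (σ i)).1 h5))

end Pool.Agent.IH
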